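import Pool.Agent.Lib.MP_e81270_lc_Orb.Main

/-!
# Extended Frege refutations whose formulas have few images

Let `G` be the group of the permutations of `q` of the pigeons, or of `q` of the holes. Consider any
Extended Frege refutation of the onto functional pigeonhole principle, with formulas of arbitrary
depth and size, and unfold its extension variables. Call a formula symmetric if each of its
subformulas has at most `T` images under `G`, up to the order and the repetition of disjuncts. If
the refutation has `N` lines, its formulas have at most `x` subformulas which are not symmetric,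
and these are nested at most `d` disjunctions deep, then
`T + N + x ≥ 2 ^ (q ^ (1 / 5 ^ (d + 1)) / 16)`.

With `d = x = 0`: in every refutation with few lines some subformula has a huge number of images.
-/

set_option autoImplicit false

namespace Pool.Agent.Results.MP_e81270_lc.SymmetricProofs

open Pool.Agent.Lib.MP_e81270_lc_LocalExt Pool.Agent.Lib.MP_e81270_lc_Orb

theorem result : ∀ (d n m N T q : ℕ)
    (G : Set (Equiv.Perm (Fin (n + 1)) × Equiv.Perm (Fin n))), 0 < n →
    ((∃ P : Finset (Fin (n + 1)), q ≤ P.card ∧ G = pigeonPerms P) ∨
      ∃ H : Finset (Fin n), q ≤ H.card ∧ G = holePerms H) →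
    ∀ (D : Fin m → Fm n m) (C : Fin N → List (Fm n m)) (E : Fin m → Fm n 0)
      (X : Finset (Fm n 0)),
      IsRefutation D C → (∀ i, E i = subst E (D i)) →
      (∀ t, ∀ A ∈ C t, asymDepth G T (subst E A) ≤ d ∧
        ∀ B, Sub B (subst E A) → Symm G T B ∨ B ∈ X) →
      (2 : ℝ) ^ ((q : ℝ) ^ ((1 : ℝ) / 5 ^ (d + 1)) / 16) ≤ T + N + X.card :=
  fun _ _ _ _ _ _ _ hn hG _ _ _ _ hR hE hX => main_orb hn hG hR hE hX

end Pool.Agent.Results.MP_e81270_lc.SymmetricProofs
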